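import Pool.Agent.N989.MK.Grp

/-!
# The identity component of a closed subgroup of `U(N)`

Project HC of helper541 (task B), by helper163; the proof is an adaptation of `exists_gen` in
`Pool.Agent.N989.MK.Grp`.
-/

open Matrix Filter
open scoped Matrix.Norms.Frobenius Topology
open Pool.Agent.H906R3.YM Pool.Agent.W793.YM Pool.Agent.TH618.YM Pool.Agent.N984.TW
open Pool.Agent.N989.MK

namespace Pool.Agent.N163.HC

set_option autoImplicit false
set_option linter.unusedSectionVars false

noncomputable section

variable {N n : ℕ} {G : Subgroup (UN N)} (B : Frame G n) (hG : IsClosed (G : Set (UN N)))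

/-- the exponentials of small vectors are a neighbourhood of the identity -/
lemma small_mem_nhds : {g : G | ∃ X, qf X ≤ 1 ∧ g = Eg B hG X} ∈ 𝓝 (1 : G) := by
  have h1 := Eg_lg B hG
  have h2 : Tendsto (fun g : G => qf (lg B g)) (𝓝 1) (𝓝 0) := by
    have h3 : Tendsto (fun g : G => lgM B (mt g)) (𝓝 1) (𝓝 0) := by
      have := (lgM_contDiffAt B).continuousAt.tendsto.comp (mt_tendsto (G := G))
      rwa [lgM_one] at this
    have h4 : Continuous fun x : Fin n → ℝ => qf x := by
      unfold qf
      fun_prop
    have h5 := (h4.tendsto 0).comp h3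
    have h6 : qf (0 : Fin n → ℝ) = 0 := by simp [qf]
    rw [h6] at h5
    exact h5
  filter_upwards [h1, h2.eventually (gt_mem_nhds (zero_lt_one))] with g hg hq
  exact ⟨lg B g, hq.le, hg.symm⟩

/-- exponentials lie in the identity component -/
lemma Eg_mem_comp (X : Fin n → ℝ) : Eg B hG X ∈ Subgroup.connectedComponentOfOne G := by
  have hcont : Continuous fun t : ℝ => Eg B hG (t • X) :=
    (Eg_cont B hG).comp (continuous_id.smul continuous_const)
  have h : IsPreconnected ((fun t : ℝ => Eg B hG (t • X)) '' Set.Icc 0 1) :=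
    isPreconnected_Icc.image _ hcont.continuousOn
  have h1 : (1 : G) ∈ (fun t : ℝ => Eg B hG (t • X)) '' Set.Icc 0 1 :=
    ⟨0, by simp, by simp [Eg_zero]⟩
  have h2 : Eg B hG X ∈ (fun t : ℝ => Eg B hG (t • X)) '' Set.Icc 0 1 :=
    ⟨1, by simp, by simp⟩
  exact h.subset_connectedComponent h1 h2

theorem comp_facts {N n : ℕ} {G : Subgroup (UN N)} (B : Frame G n)
    (hG : IsClosed (G : Set (UN N))) :
    (∀ X, Eg B hG X ∈ Subgroup.connectedComponentOfOne G) ∧
      IsOpen ((Subgroup.connectedComponentOfOne G : Subgroup G) : Set G) ∧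
      ∃ m : ℕ, ∀ x ∈ Subgroup.connectedComponentOfOne G, ∃ l : List (Fin n → ℝ),
        l.length ≤ m ∧ (∀ X ∈ l, qf X ≤ 1) ∧ x = (l.map (Eg B hG)).prod := by
  have hcomp : CompactSpace G := isCompact_iff_compactSpace.1 hG.isCompact
  have hU := small_mem_nhds B hG
  refine ⟨Eg_mem_comp B hG, ?_, ?_⟩
  · refine Subgroup.isOpen_of_mem_nhds _ (g := 1) (mem_of_superset hU ?_)
    rintro g ⟨X, -, rfl⟩
    exact Eg_mem_comp B hG X
  set A : ℕ → Set G := fun m => {x | ∃ l : List (Fin n → ℝ), l.length ≤ m ∧
    (∀ X ∈ l, qf X ≤ 1) ∧ x = (l.map (Eg B hG)).prod} with hA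
  have hmono : Monotone A := fun a b hab x ⟨l, h1, h2, h3⟩ => ⟨l, h1.trans hab, h2, h3⟩
  -- the union contains the identity component
  have hun : ∀ x ∈ Subgroup.connectedComponentOfOne G, ∃ m, x ∈ A m := by
    intro x hx0
    have hx : x ∈ Subgroup.closure {g : G | ∃ X, qf X ≤ 1 ∧ g = Eg B hG X} := by
      set S := Subgroup.closure {g : G | ∃ X, qf X ≤ 1 ∧ g = Eg B hG X} with hS
      have ho : IsOpen (S : Set G) :=
        Subgroup.isOpen_of_mem_nhds S (mem_of_superset hU Subgroup.subset_closure)
      have hcl : IsClosed (S : Set G) := Subgroup.isClosed_of_isOpen S ho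
      exact (IsClopen.connectedComponent_subset ⟨hcl, ho⟩ S.one_mem) hx0
    clear hx0
    induction hx using Subgroup.closure_induction with
    | mem y hy =>
      obtain ⟨X, hX, rfl⟩ := hy
      exact ⟨1, [X], by simp, by simpa using hX, by simp⟩
    | one => exact ⟨0, [], by simp, by simp, by simp⟩
    | mul y z _ _ hy hz =>
      obtain ⟨m1, l1, a1, a2, a3⟩ := hy
      obtain ⟨m2, l2, b1, b2, b3⟩ := hz
      refine ⟨m1 + m2, l1 ++ l2, ?_, ?_, ?_⟩
      · rw [List.length_append]; omega
      · intro X hX
        rcases List.mem_append.1 hX with h | h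
        · exact a2 X h
        · exact b2 X h
      · rw [List.map_append, List.prod_append, a3, b3]
    | inv y _ hy =>
      obtain ⟨m1, l1, a1, a2, a3⟩ := hy
      refine ⟨m1, (l1.map fun X => -X).reverse, ?_, ?_, ?_⟩
      · simpa using a1
      · intro X hX
        rw [List.mem_reverse, List.mem_map] at hX
        obtain ⟨Z, hZ, rfl⟩ := hX
        have := a2 Z hZ
        have e : qf (-Z) = qf Z := by
          rw [← neg_one_smul ℝ Z, qf_smul]; norm_num
        rwa [e]
      · rw [a3, List.prod_inv_reverse, List.map_reverse, List.map_map, List.map_map]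
        congr 2
        refine List.map_congr_left fun X _ => ?_
        simp [Eg_neg]
  -- compactness
  have hint : ∀ x ∈ Subgroup.connectedComponentOfOne G, ∃ m, x ∈ interior (A m) := by
    intro x hx
    obtain ⟨m, l, a1, a2, a3⟩ := hun x hx
    refine ⟨m + 1, ?_⟩
    rw [mem_interior_iff_mem_nhds]
    have h1 : (fun y => x⁻¹ * y) ⁻¹' {g : G | ∃ X, qf X ≤ 1 ∧ g = Eg B hG X} ∈ 𝓝 x := by
      have hc1 : ContinuousAt (fun y : G => x⁻¹ * y) x :=
        (continuous_const.mul continuous_id).continuousAt
      apply hc1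
      simpa using hU
    refine mem_of_superset h1 ?_
    rintro y ⟨X, hX, hy⟩
    refine ⟨l ++ [X], ?_, ?_, ?_⟩
    · rw [List.length_append, List.length_singleton]; omega
    · intro Z hZ
      rcases List.mem_append.1 hZ with h | h
      · exact a2 Z h
      · rw [List.mem_singleton.1 h]; exact hX
    · rw [List.map_append, List.prod_append, ← a3]
      simp only [List.map_cons, List.map_nil, List.prod_cons, List.prod_nil, mul_one]
      rw [← hy, mul_inv_cancel_left]
  have hC : IsCompact ((Subgroup.connectedComponentOfOne G : Subgroup G) : Set G) :=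
    (isClosed_connectedComponent (α := G) (x := 1)).isCompact
  obtain ⟨m, hm⟩ := hC.elim_directed_cover (fun m => interior (A m))
    (fun m => isOpen_interior) (fun x hx => Set.mem_iUnion.2 (hint x hx))
    (monotone_nat_of_le_succ fun k => interior_mono (hmono (Nat.le_succ k))).directed_le
  refine ⟨m, fun x hx => ?_⟩
  obtain ⟨l, h1, h2, h3⟩ := interior_subset (hm hx)
  exact ⟨l, h1, h2, h3⟩

end

end Pool.Agent.N163.HC
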